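import Pool.Agent.helper10.NCA.SpecB

/-!
# Row p2k:IDX (MP_70a088_an, P2, NC): an infinitesimal closing is near the identity on the ball of radius c
-/

set_option autoImplicit false

open Complex Metric Set Filter Topology MeasureTheory
open Pool.Agent.helper98.ILF
open WP (it)
open HY (UD T S hd UN RM)
open PM
open P2 (SS FL FLS CLS FR TL)
open PL (TP LO PZ GJ INR PG DK ht tr DI CY hG)
open P2G (PV yy rr FJ PD)
open V3 (Chain chi)
open EG (wnd)
open CH (Off)
open P2Z (nt ji)

noncomputable section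

namespace NCA

theorem IDX_it (f : Polynomial ℂ) (n : ℕ) : Differentiable ℂ (it f n) := by
  induction n with
  | zero => exact differentiable_id
  | succ n ih =>
    have : it f (n + 1) = fun z => f.eval (it f n z) := by
      funext z; simp only [it, Function.iterate_succ_apply']
    rw [this]
    exact f.differentiable.comp ih

theorem IDX_dif (f : Polynomial ℂ) (R : ℝ) (z : ℕ → ℂ) (n T a : ℕ → ℕ) (j : ℕ) : Differentiable ℂ (fun w => F1 f R z n T a j w) := by
  unfold F1 P2G.PV
  exact (((IDX_it f (a j)).comp ((differentiable_const _).add ((differentiable_const _).mul differentiable_id))).sub_const _).div_const _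

/-- near the identity on a ball: injective on smaller balls. -/
theorem IDX_inj {G : ℂ → ℂ} (hG : Differentiable ℂ G) {c ρ ε : ℝ} (hρ : ρ < c) (hε : 0 ≤ ε) (hε2 : 2 * ε < c - ρ)
    (h : ∀ w ∈ ball (0 : ℂ) c, ‖G w - w‖ ≤ ε) : InjOn G (ball 0 ρ) := by
  have hs : 0 < (c - ρ) / 2 := by linarith
  have hd : ∀ w ∈ ball (0 : ℂ) ρ, ‖deriv (fun w => G w - w) w‖ ≤ ε / ((c - ρ) / 2) := by
    intro w hw
    apply Complex.norm_deriv_le_of_forall_mem_sphere_norm_le hs (hG.sub differentiable_id).diffContOnCl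
    intro v hv
    apply h v
    rw [mem_ball_zero_iff] at hw ⊢
    rw [mem_sphere, dist_eq_norm] at hv
    have : ‖v‖ ≤ ‖v - w‖ + ‖w‖ := by
      have := norm_add_le (v - w) w
      simpa using this
    linarith
  intro w hw w' hw' he
  have h1 := (convex_ball (0 : ℂ) ρ).norm_image_sub_le_of_norm_deriv_le (f := fun w => G w - w) (fun x _ => (hG.sub differentiable_id) x) hd hw hw'
  have h2 : (fun w => G w - w) w' - (fun w => G w - w) w = -(w' - w) := by
    simp only
    rw [he]
    ring
  rw [h2, norm_neg] at h1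
  by_contra hne
  have h3 : 0 < ‖w' - w‖ := norm_pos_iff.2 (sub_ne_zero.2 fun h => hne h.symm)
  have h4 : ε / ((c - ρ) / 2) < 1 := by
    rw [div_lt_one hs]
    linarith
  nlinarith

theorem IDX (hTMO : V3.TMO_stmt) (hKO3 : V3.KO3_stmt) : IDX_stmt := by
  intro f R μ x₀ U z n T m χ G χ' χ₁ la c e hD q hq hκ
  have hc0 := hD.c0
  -- injectivity
  have hinj : ∀ ρ : ℝ, ρ < c → ∀ᶠ j in (U : Filter ℕ), InjOn (fun w => F1 f R z n T q j w) (ball 0 ρ) := by
    intro ρ hρ
    have h1 : ∀ᶠ j in (U : Filter ℕ), e j < (c - ρ) / 2 := hD.e0.eventually_lt_const (by linarith)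
    filter_upwards [hD.ret, h1, hq] with j h1 h2 h3
    have h4 := IDX_inj (IDX_dif f R z n T m j) hρ (hD.ep j).le (by linarith) h1
    intro w hw w' hw' he
    apply h4 hw hw'
    simp only at he ⊢
    have hr : ru f R z n T j ≠ 0 := (hD.r0 j).ne'
    have h5 : it f (q j) (pt f R z n T j w) = it f (q j) (pt f R z n T j w') := by
      rw [← pt_F1 hr q w, ← pt_F1 hr q w', he]
    have h6 : ∀ v, it f (m j) v = it f (m j - q j) (it f (q j) v) := by
      intro v
      simp only [it]
      rw [← Function.iterate_add_apply, Nat.sub_add_cancel h3.2.le]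
    have h7 : it f (m j) (pt f R z n T j w) = it f (m j) (pt f R z n T j w') := by
      rw [h6, h6, h5]
    unfold F1 P2G.PV
    unfold pt at h7
    rw [h7]
  -- local bounds
  have hbd : ∀ ρ : ℝ, 0 < ρ → ρ < c → ∃ C : ℝ, ∀ᶠ j in (U : Filter ℕ), ∀ w ∈ ball (0 : ℂ) ρ, ‖F1 f R z n T q j w‖ ≤ C := by
    intro ρ hρ hρc
    set ρ' : ℝ := (ρ + c) / 2 with hρ'
    have hη : 0 < 1 - ρ / ρ' := by
      rw [sub_pos, div_lt_one (by linarith)]
      linarith
    have hη1 : 1 - ρ / ρ' < 1 := by
      have : 0 < ρ / ρ' := by apply div_pos hρ; linarith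
      linarith
    obtain ⟨C, hC, h⟩ := hKO3 (1 - ρ / ρ') hη hη1
    refine ⟨c + C * c * 2, ?_⟩
    filter_upwards [hinj ρ' (by linarith), hκ (c / 8) (by linarith)] with j h1 h2
    have hρ'0 : 0 < ρ' := by linarith
    obtain ⟨-, h3⟩ := h (fun w => F1 f R z n T q j w) 0 ρ' hρ'0 (IDX_dif f R z n T q j).differentiableOn h1
    have h4 : ‖deriv (fun w => F1 f R z n T q j w) 0‖ ≤ 2 := by
      have := Complex.norm_deriv_le_of_forall_mem_sphere_norm_le (f := fun w => F1 f R z n T q j w) (c := 0) (R := c / 8) (C := c / 4) (by linarith) (IDX_dif f R z n T q j).diffContOnCl (fun v hv => by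
        rw [mem_sphere_zero_iff_norm] at hv
        have h5 := h2 v (by rw [mem_ball_zero_iff]; linarith)
        have h6 : ‖F1 f R z n T q j v‖ ≤ ‖F1 f R z n T q j v - v‖ + ‖v‖ := by
          have := norm_add_le (F1 f R z n T q j v - v) v
          simpa using this
        linarith)
      have h7 : c / 4 / (c / 8) = 2 := by field_simp; norm_num
      rwa [h7] at this
    have h5 : ‖F1 f R z n T q j 0‖ ≤ c := by
      have := h2 0 (by rw [mem_ball_zero_iff]; simpa using (by linarith : 0 < c / 4))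
      rw [sub_zero] at this
      linarith
    intro w hw
    have h6 : (1 - (1 - ρ / ρ')) * ρ' = ρ := by
      field_simp
      ring
    have h7 := (h3 w (by rw [h6]; exact hw)).2.2.1
    simp only [sub_zero] at h7
    have h8 : ‖w‖ ≤ c := by
      rw [mem_ball_zero_iff] at hw
      linarith
    have h9 : ‖F1 f R z n T q j w‖ ≤ ‖F1 f R z n T q j w - F1 f R z n T q j 0‖ + ‖F1 f R z n T q j 0‖ := by
      have := norm_add_le (F1 f R z n T q j w - F1 f R z n T q j 0) (F1 f R z n T q j 0)
      simpa using this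
    have h10 : C * ‖w‖ * ‖deriv (fun w => F1 f R z n T q j w) 0‖ ≤ C * c * 2 := by
      have h11 : C * ‖w‖ ≤ C * c := by nlinarith
      have h12 : 0 ≤ C * ‖w‖ := by positivity
      nlinarith [norm_nonneg (deriv (fun w => F1 f R z n T q j w) 0)]
    linarith
  obtain ⟨Fl, hFl, hlim⟩ := hTMO U (fun j w => F1 f R z n T q j w) (ball 0 c) isOpen_ball (fun x hx => by
    rw [mem_ball_zero_iff] at hx
    obtain ⟨C, hC⟩ := hbd ((‖x‖ + c) / 2) (by linarith [norm_nonneg x]) (by linarith)
    refine ⟨(c - ‖x‖) / 2, by linarith, C, ?_⟩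
    filter_upwards [hC] with j hj
    refine ⟨(IDX_dif f R z n T q j).differentiableOn, fun y hy => hj y ?_⟩
    rw [mem_ball, dist_eq_norm] at hy
    rw [mem_ball_zero_iff]
    have : ‖y‖ ≤ ‖y - x‖ + ‖x‖ := by
      have := norm_add_le (y - x) x
      simpa using this
    linarith)
  -- the limit is the identity
  have hid : ∀ w ∈ ball (0 : ℂ) (c / 4), Fl w = w := by
    intro w hw
    have hwc : w ∈ ball (0 : ℂ) c := ball_subset_ball (by linarith) hw
    have h1 : Tendsto (fun j => F1 f R z n T q j w) U (𝓝 (Fl w)) := hlim.tendsto_at hwc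
    have h2 : Tendsto (fun j => F1 f R z n T q j w) U (𝓝 w) := by
      rw [Metric.tendsto_nhds]
      intro κ hκ0
      filter_upwards [hκ κ hκ0] with j hj
      rw [dist_eq_norm]
      exact hj w hw
    exact tendsto_nhds_unique h1 h2
  have heq : EqOn Fl (fun w => w) (ball 0 c) := by
    apply (hFl.analyticOnNhd isOpen_ball).eqOn_of_preconnected_of_eventuallyEq (differentiableOn_id.analyticOnNhd isOpen_ball) (convex_ball (0 : ℂ) c).isPreconnected (mem_ball_self hc0)
    filter_upwards [isOpen_ball.mem_nhds (mem_ball_self (x := (0 : ℂ)) (show 0 < c / 4 by linarith))] with w hw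
    exact hid w hw
  exact hlim.congr_right heq

end NCA
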